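import Pool.Agent.U765.OC.Stm

set_option autoImplicit false

namespace Pool.Agent.U451.OC

open Pool.Agent.U765.OC Finset

lemma inner_zero {c c' : ℂ} {r r' : ℝ} (h : ‖c - c'‖ ^ 2 = r ^ 2 + r' ^ 2) {p : ℂ}
    (h1 : ‖p - c‖ = r) (h2 : ‖p - c'‖ = r') : inner ℝ (p - c) (p - c') = 0 := by
  have h3 := norm_sub_sq_real (p - c) (p - c')
  have h4 : (p - c) - (p - c') = -(c - c') := by ring
  rw [h4, norm_neg, h, h1, h2] at h3
  linarith

lemma norm_eq_iff_sq {z : ℂ} {r : ℝ} (hr : 0 < r) : ‖z‖ = r ↔ z.re ^ 2 + z.im ^ 2 = r ^ 2 := by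
  have h0 : z.re ^ 2 + z.im ^ 2 = ‖z‖ ^ 2 := by
    rw [Complex.sq_norm, Complex.normSq_apply]; ring
  rw [h0]
  constructor
  · intro h; rw [h]
  · intro h
    exact (pow_left_inj₀ (norm_nonneg _) hr.le two_ne_zero).mp h

theorem t_ORTH : S_ORTH := by
  intro c c' r r' hr hr' h
  refine ⟨?_, ?_⟩
  swap
  · rintro p ⟨h1, h2⟩
    rw [mem_sphere_iff_norm] at h1 h2
    exact inner_zero h h1 h2
  set D : ℝ := r ^ 2 + r' ^ 2 with hD
  have hDpos : 0 < D := by positivity
  set dx : ℝ := c'.re - c.re with hdx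
  set dy : ℝ := c'.im - c.im with hdy
  have hd : dx ^ 2 + dy ^ 2 = D := by
    have h0 : ‖c - c'‖ ^ 2 = (c - c').re ^ 2 + (c - c').im ^ 2 := by
      rw [Complex.sq_norm, Complex.normSq_apply]; ring
    rw [h0] at h
    simp only [Complex.sub_re, Complex.sub_im] at h
    rw [← h, hdx, hdy]
    ring
  set p1 : ℂ := ⟨c.re + (dx * r ^ 2 - dy * (r * r')) / D, c.im + (dy * r ^ 2 + dx * (r * r')) / D⟩ with hp1
  set p2 : ℂ := ⟨c.re + (dx * r ^ 2 + dy * (r * r')) / D, c.im + (dy * r ^ 2 - dx * (r * r')) / D⟩ with hp2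
  have hset : circ c r ∩ circ c' r' = {p1, p2} := by
    ext p
    simp only [Set.mem_inter_iff, Set.mem_insert_iff, Set.mem_singleton_iff, mem_sphere_iff_norm]
    rw [norm_eq_iff_sq hr, norm_eq_iff_sq hr']
    simp only [Complex.sub_re, Complex.sub_im]
    constructor
    · rintro ⟨h1, h2⟩
      -- coordinates along d
      set x := p.re - c.re with hx
      set y := p.im - c.im with hy
      have e2 : (x - dx) ^ 2 + (y - dy) ^ 2 = r' ^ 2 := by
        rw [← h2, hx, hy, hdx, hdy]; ring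
      have a1 : dx * x + dy * y = r ^ 2 := by nlinarith
      have a2 : (dx * y - dy * x) ^ 2 = (r * r') ^ 2 := by
        have : (dx * y - dy * x) ^ 2 = (dx ^ 2 + dy ^ 2) * (x ^ 2 + y ^ 2) - (dx * x + dy * y) ^ 2 := by ring
        rw [this, a1, hd, h1, hD]; ring
      rcases sq_eq_sq_iff_eq_or_eq_neg.mp a2 with h3 | h3
      · left
        apply Complex.ext
        · show p.re = c.re + (dx * r ^ 2 - dy * (r * r')) / D
          have : x = (dx * r ^ 2 - dy * (r * r')) / D := by
            rw [eq_div_iff hDpos.ne', ← a1, ← h3, ← hd]; ring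
          rw [← this, hx]; ring
        · show p.im = c.im + (dy * r ^ 2 + dx * (r * r')) / D
          have : y = (dy * r ^ 2 + dx * (r * r')) / D := by
            rw [eq_div_iff hDpos.ne', ← a1, ← h3, ← hd]; ring
          rw [← this, hy]; ring
      · right
        have h3' : r * r' = -(dx * y - dy * x) := by linarith
        apply Complex.ext
        · show p.re = c.re + (dx * r ^ 2 + dy * (r * r')) / D
          have : x = (dx * r ^ 2 + dy * (r * r')) / D := by
            rw [eq_div_iff hDpos.ne', ← a1, h3', ← hd]; ring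
          rw [← this, hx]; ring
        · show p.im = c.im + (dy * r ^ 2 - dx * (r * r')) / D
          have : y = (dy * r ^ 2 - dx * (r * r')) / D := by
            rw [eq_div_iff hDpos.ne', ← a1, h3', ← hd]; ring
          rw [← this, hy]; ring
    · have key : ∀ s : ℝ, s ^ 2 = (r * r') ^ 2 →
          ((dx * r ^ 2 - dy * s) / D) ^ 2 + ((dy * r ^ 2 + dx * s) / D) ^ 2 = r ^ 2 ∧
          ((dx * r ^ 2 - dy * s) / D - dx) ^ 2 + ((dy * r ^ 2 + dx * s) / D - dy) ^ 2 = r' ^ 2 := by
        intro s hs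
        constructor
        · rw [div_pow, div_pow, ← add_div, div_eq_iff (by positivity)]
          have : (dx * r ^ 2 - dy * s) ^ 2 + (dy * r ^ 2 + dx * s) ^ 2
              = (dx ^ 2 + dy ^ 2) * (r ^ 4 + s ^ 2) := by ring
          rw [this, hd, hs, hD]; ring
        · have e1 : (dx * r ^ 2 - dy * s) / D - dx = (-(dx * r' ^ 2) - dy * s) / D := by
            rw [div_sub' hDpos.ne', hD]; congr 1; ring
          have e2 : (dy * r ^ 2 + dx * s) / D - dy = (-(dy * r' ^ 2) + dx * s) / D := by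
            rw [div_sub' hDpos.ne', hD]; congr 1; ring
          rw [e1, e2, div_pow, div_pow, ← add_div, div_eq_iff (by positivity)]
          have : (-(dx * r' ^ 2) - dy * s) ^ 2 + (-(dy * r' ^ 2) + dx * s) ^ 2
              = (dx ^ 2 + dy ^ 2) * (r' ^ 4 + s ^ 2) := by ring
          rw [this, hd, hs, hD]; ring
      rintro (rfl | rfl)
      · obtain ⟨k1, k2⟩ := key (r * r') rfl
        refine ⟨?_, ?_⟩
        · rw [← k1, hp1]; ring
        · rw [← k2, hp1, hdx, hdy]; ring
      · obtain ⟨k1, k2⟩ := key (-(r * r')) (by ring)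
        refine ⟨?_, ?_⟩
        · rw [← k1, hp2]; ring
        · rw [← k2, hp2, hdx, hdy]; ring
  rw [hset]
  apply Set.ncard_pair
  intro heq
  have e1 : (dx * r ^ 2 - dy * (r * r')) / D = (dx * r ^ 2 + dy * (r * r')) / D := by
    have := congrArg Complex.re heq
    simp only [hp1, hp2] at this
    linarith
  have e2 : (dy * r ^ 2 + dx * (r * r')) / D = (dy * r ^ 2 - dx * (r * r')) / D := by
    have := congrArg Complex.im heq
    simp only [hp1, hp2] at this
    linarith
  rw [div_left_inj' hDpos.ne'] at e1 e2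
  have hrr : 0 < r * r' := mul_pos hr hr'
  have f1 : dy = 0 := by
    have : dy * (r * r') = 0 := by linarith
    rcases mul_eq_zero.mp this with h | h
    · exact h
    · exact absurd h hrr.ne'
  have f2 : dx = 0 := by
    have : dx * (r * r') = 0 := by linarith
    rcases mul_eq_zero.mp this with h | h
    · exact h
    · exact absurd h hrr.ne'
  rw [f1, f2] at hd
  linarith [hd, hDpos]

lemma inner_coord (u v : ℂ) : inner ℝ u v = u.re * v.re + u.im * v.im := by
  rw [Complex.inner]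
  simp [Complex.mul_re]
  ring

lemma no_three_perp (u v w : ℂ) (hu : u ≠ 0) (hv : v ≠ 0) (hw : w ≠ 0) (h1 : inner ℝ u v = 0)
    (h2 : inner ℝ u w = 0) (h3 : inner ℝ v w = 0) : False := by
  rw [inner_coord] at h1 h2 h3
  have pos : ∀ z : ℂ, z ≠ 0 → 0 < z.re ^ 2 + z.im ^ 2 := by
    intro z hz
    have := Complex.normSq_pos.mpr hz
    rw [Complex.normSq_apply] at this
    nlinarith
  have pu := pos u hu
  have pv := pos v hv
  have pw := pos w hw
  have h4 : (u.re * v.im - u.im * v.re) * (u.re * w.im - u.im * w.re) = 0 := by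
    linear_combination (u.re ^ 2 + u.im ^ 2) * h3 - (u.re * w.re + u.im * w.im) * h1
  rcases mul_eq_zero.mp h4 with h5 | h5
  · have : (u.re ^ 2 + u.im ^ 2) * (v.re ^ 2 + v.im ^ 2) = 0 := by
      linear_combination (u.re * v.re + u.im * v.im) * h1 + (u.re * v.im - u.im * v.re) * h5
    exact absurd this (mul_pos pu pv).ne'
  · have : (u.re ^ 2 + u.im ^ 2) * (w.re ^ 2 + w.im ^ 2) = 0 := by
      linear_combination (u.re * w.re + u.im * w.im) * h2 + (u.re * w.im - u.im * w.re) * h5
    exact absurd this (mul_pos pu pw).ne'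

theorem t_CNT : S_CNT := by
  classical
  intro ι _ A
  have hpw : ∀ i j, i ≠ j → ∀ x, x ∈ circ (A.c i) (A.r i) → x ∈ circ (A.c j) (A.r j) →
      MeetOrth (A.c i) (A.r i) (A.c j) (A.r j) := by
    intro i j hij x hi hj
    rcases A.pw i j hij with h | h
    · exact absurd hj (Set.disjoint_left.mp h hi)
    · exact h
  have hfin : A.crossings.Finite := by
    have hsub : A.crossings ⊆ ⋃ i, ⋃ j, ⋃ (_ : i ≠ j), circ (A.c i) (A.r i) ∩ circ (A.c j) (A.r j) := by
      rintro x ⟨i, j, hij, hi, hj⟩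
      simp only [Set.mem_iUnion]
      exact ⟨i, j, hij, hi, hj⟩
    refine Set.Finite.subset ?_ hsub
    refine Set.finite_iUnion fun i => Set.finite_iUnion fun j => Set.finite_iUnion fun hij => ?_
    rcases A.pw i j hij with h | h
    · rw [Set.disjoint_iff_inter_eq_empty.mp h]
      exact Set.finite_empty
    · exact Set.finite_of_ncard_ne_zero (by rw [h.1]; norm_num)
  have h3 : ∀ i j k, i ≠ j → i ≠ k → j ≠ k → ∀ x, x ∈ circ (A.c i) (A.r i) →
      x ∈ circ (A.c j) (A.r j) → x ∉ circ (A.c k) (A.r k) := by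
    intro i j k hij hik hjk x hi hj hk
    have hne : ∀ l, x ∈ circ (A.c l) (A.r l) → x - A.c l ≠ 0 := by
      intro l hl h0
      rw [mem_sphere_iff_norm, h0, norm_zero] at hl
      exact (A.pos l).ne hl
    exact no_three_perp _ _ _ (hne i hi) (hne j hj) (hne k hk)
      ((hpw i j hij x hi hj).2 x ⟨hi, hj⟩) ((hpw i k hik x hi hk).2 x ⟨hi, hk⟩)
      ((hpw j k hjk x hj hk).2 x ⟨hj, hk⟩)
  refine ⟨hfin, h3, ?_⟩
  intro P hP
  set C : Finset ℂ := hfin.toFinset with hC
  set f : ι × ι → Finset ℂ := fun x =>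
    C.filter (fun z => z ∈ circ (A.c x.1) (A.r x.1) ∧ z ∈ circ (A.c x.2) (A.r x.2)) with hf
  have hcard : ∀ x ∈ P, (f x).card = 2 := by
    intro x hx
    obtain ⟨hne, hno, -⟩ := hP x hx
    have hm := t_ORTH (A.c x.1) (A.c x.2) (A.r x.1) (A.r x.2) (A.pos _) (A.pos _) hno
    have e : ((f x : Finset ℂ) : Set ℂ) = circ (A.c x.1) (A.r x.1) ∩ circ (A.c x.2) (A.r x.2) := by
      ext z
      simp only [hf, Finset.coe_filter, Set.mem_setOf_eq, Set.mem_inter_iff]
      constructor
      · rintro ⟨-, h⟩; exact h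
      · intro h
        refine ⟨?_, h⟩
        rw [hC, Set.Finite.mem_toFinset]
        exact ⟨x.1, x.2, hne, h.1, h.2⟩
    rw [← Set.ncard_coe_finset, e]
    exact hm.1
  have hdisj : ∀ x ∈ P, ∀ y ∈ P, x ≠ y → Disjoint (f x) (f y) := by
    intro x hx y hy hxy
    rw [Finset.disjoint_left]
    intro z hz1 hz2
    simp only [hf, Finset.mem_filter] at hz1 hz2
    obtain ⟨-, a1, a2⟩ := hz1
    obtain ⟨-, b1, b2⟩ := hz2
    obtain ⟨hne, -, hsw⟩ := hP x hx
    obtain ⟨hne', -, -⟩ := hP y hy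
    have g1 : y.1 = x.1 ∨ y.1 = x.2 := by
      by_contra hcon
      push Not at hcon
      exact h3 x.1 x.2 y.1 hne hcon.1.symm hcon.2.symm z a1 a2 b1
    have g2 : y.2 = x.1 ∨ y.2 = x.2 := by
      by_contra hcon
      push Not at hcon
      exact h3 x.1 x.2 y.2 hne hcon.1.symm hcon.2.symm z a1 a2 b2
    rcases g1 with g1 | g1 <;> rcases g2 with g2 | g2
    · exact hne' (g1.trans g2.symm)
    · exact hxy (Prod.ext g1.symm g2.symm)
    · apply hsw
      have : x.swap = y := Prod.ext g1.symm g2.symm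
      rw [this]
      exact hy
    · exact hne' (g1.trans g2.symm)
  have hbi : (P.biUnion f).card = ∑ x ∈ P, (f x).card := Finset.card_biUnion hdisj
  rw [Finset.sum_congr rfl hcard, Finset.sum_const, smul_eq_mul] at hbi
  have hsub : P.biUnion f ⊆ C := by
    intro z hz
    obtain ⟨x, -, hx⟩ := Finset.mem_biUnion.mp hz
    exact (Finset.mem_filter.mp hx).1
  have := Finset.card_le_card hsub
  rw [Set.ncard_eq_toFinset_card _ hfin]
  rw [hbi] at this
  rw [mul_comm]
  exact this

end Pool.Agent.U451.OC
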